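import Pool.Agent.H54.Sw.Red

/-!
# `MaxTotalSwitches` in the stacking model is NP-hard

Drawings (`IsDrawing`) and the total number of switches of the casing given by an order of the
edges (`switches`) are defined in `Pool.Agent.H54.Sw.Defs`. The class `NP` and polynomial-time
computable functions (`IsPolyTime`, with the encoding of pairs, lists and numbers by bit strings
and the machines `TM2` of Mathlib) are those of `Pool.Prelude`.
-/

namespace Pool.Agent.Results.MP_21e81a_lc.StackedNPHard

open N68a2faeb Pool.Agent.H54.Sw

/-- All coordinates of the end points are at most `m + 1`, where `m` is the number of edges. -/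
def SmallCoordinates (E : List Seg) : Prop :=
  ∀ e ∈ E, e.1.1 ≤ E.length + 1 ∧ e.1.2 ≤ E.length + 1 ∧ e.2.1 ≤ E.length + 1 ∧
    e.2.2 ≤ E.length + 1

/-- The question asked about the drawing `E` and the number `K`: is there a linear order of the
edges (an injective `σ`; at a crossing the edge with the larger value of `σ` is the bridge) whose
casing has at least `K` switches in total? -/
def Achievable (E : List Seg) (K : ℕ) : Prop :=
  ∃ σ : Seg → ℕ, Set.InjOn σ {e | e ∈ E} ∧ K ≤ switches E σ

/-- **Theorem.** The decision version of `MaxTotalSwitches` in the stacking model is NP-hard: for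
every decision problem `L` in `NP` there is a polynomial-time computable function which maps `x` to
a drawing `E` of a finite simple connected graph, with `m` edges drawn as straight segments between
points with coordinates at most `m + 1`, and to a number `K`, such that `x` is in `L` if and only
if some linear order of the edges of `E` gives at least `K` switches in total. -/
theorem result : ∀ L ∈ NP, ∃ F : List Bool → List Seg × ℕ, IsPolyTime F ∧
    ∀ x, IsDrawing (F x).1 ∧ SmallCoordinates (F x).1 ∧
      (L x = true ↔ Achievable (F x).1 (F x).2) := by
  intro L hL
  obtain ⟨nv, nc, lit, _, h2, h3, _, h5⟩ := Pool.Agent.H54.PT.np_sat3 L hL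
  refine ⟨red nc lit, Pool.Agent.H54.PT.isPolyTime (de_red h2 h3), fun x =>
    ⟨red_drawing x, red_small x, ?_⟩⟩
  rw [h5 x, ← red_mem x]
  exact ⟨fun h => h.2, fun h => ⟨red_drawing x, h⟩⟩

end Pool.Agent.Results.MP_21e81a_lc.StackedNPHard
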